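import Pool.Agent.T9h34.S.GridScore

set_option autoImplicit false

/-!
# The embedding of a grid of blocks into the graphs on `n` vertices
-/

namespace Pool.Agent.T9h34.W

open Finset Pool.Agent.T9h34 Pool.Agent.T9h34.S
open scoped Classical

/-- A clique of given size. -/
theorem clique_iff_large {n k : ℕ} (G : SimpleGraph (Fin n)) :
    (∃ Q : Finset (Fin n), G.IsClique (Q : Set (Fin n)) ∧ k ≤ Q.card) ↔ ∃ S, G.IsNClique k S := by
  constructor
  · rintro ⟨Q, hQ, hc⟩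
    obtain ⟨Q', hQ', hc'⟩ := Finset.exists_subset_card_eq hc
    refine ⟨Q', ?_⟩
    rw [SimpleGraph.isNClique_iff]
    exact ⟨hQ.subset (by exact_mod_cast hQ'), hc'⟩
  · rintro ⟨Q, hQ⟩
    rw [SimpleGraph.isNClique_iff] at hQ
    exact ⟨Q, hQ.1, hQ.2.ge⟩

/-- The embedding: the graph of a set of grid variables is a projection of the set, and it has a
clique of size `q` iff the set contains a word. -/
theorem grid_embedding {n q a b k m : ℕ} (S : G.Row a b → Fin k → Fin m) (ha : 1 ≤ a) (hk : 1 ≤ k)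
    (hq : a * 2 + a * (2 * (b * k)) ≤ q) (hqn : q ≤ n) {p : ℕ}
    (hp : 1 ≤ p) (hw : p * (a * 2 * 2 ^ b + a * (2 * (b * k)) * 4) ≤ n - q) :
    ∃ (σ : Fin n × Fin n → GGround a b p ⊕ Bool) (Φ : Finset (GGround a b p) → SimpleGraph (Fin n)),
      (∀ Z Z', Z ⊆ Z' → Φ Z ≤ Φ Z') ∧
      (∀ Z, (∃ T, (Φ Z).IsNClique q T) ↔ Gr.HasWord S Z) ∧
      ∀ Z, pull σ (chi Z) = graphInput (Φ Z) := by
  obtain ⟨w, hwd⟩ : ∃ w, w = a * 2 * (p * 2 ^ b) + a * (2 * (b * k)) * 4 := ⟨_, rfl⟩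
  have hwp : w ≤ n - q := by
    refine le_trans ?_ hw
    calc w = p * (a * 2 * 2 ^ b) + 1 * (a * (2 * (b * k)) * 4) := by rw [hwd]; ring
      _ ≤ p * (a * 2 * 2 ^ b) + p * (a * (2 * (b * k)) * 4) :=
          Nat.add_le_add_left (Nat.mul_le_mul_right _ hp) _
      _ = p * (a * 2 * 2 ^ b + a * (2 * (b * k)) * 4) := by ring
  obtain ⟨u, hu⟩ : ∃ u, q = a * 2 + (a * (2 * (b * k)) + u) :=
    ⟨q - (a * 2 + a * (2 * (b * k))), by omega⟩
  obtain ⟨d, hdn⟩ : ∃ d, u + d + w = n := ⟨n - u - w, by omega⟩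
  have hcardG : Fintype.card (Grp a b k u) = q := by
    simp only [Grp, Fintype.card_sum, Fintype.card_prod, Fintype.card_fin, Fintype.card_bool]
    omega
  have hcard : Fintype.card (Gr.VV a b k u p d) = Fintype.card (Fin n) := by
    simp only [Gr.VV, GVtx, Fintype.card_sum, Fintype.card_prod, Fintype.card_fin,
      Fintype.card_bool, Fintype.card_fun, ZMod.card]
    rw [← hdn, hwd]
    ring
  obtain ⟨ι⟩ := Fintype.card_eq.1 hcard
  have hc : q - 1 + 1 = Fintype.card (Grp a b k u) := by omega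
  have hbot : (⊥ : SimpleGraph (Gr.VV a b k u p d)) ≤ Gr.Hg a b k u p d (q - 1) := bot_le
  refine ⟨Gr.projW S ι ⊥, fun Z => Gr.Γ S ι Z ⊥, fun Z Z' h => Gr.Γ_mono S ι h le_rfl, ?_, ?_⟩
  · intro Z
    rw [← clique_iff_large, ← Gr.Γ_clique S hk ha hc ι hbot, hcardG]
  · intro Z
    exact Gr.pull_projW S ι hbot Z

/-- An injective enumeration of the blocks. -/
theorem exists_enum {p M : ℕ} (hp : 1 ≤ p) (hM : M ≤ p ^ 2) :
    ∃ e : ℕ → Fin p × Fin p, ∀ i < M, ∀ j < M, e i = e j → i = j := by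
  have hcard : Fintype.card (Fin M) ≤ Fintype.card (Fin p × Fin p) := by
    rw [Fintype.card_prod, Fintype.card_fin, Fintype.card_fin, ← sq]
    exact hM
  obtain ⟨f⟩ := Function.Embedding.nonempty_of_card_le hcard
  refine ⟨fun i => if h : i < M then f ⟨i, h⟩ else (⟨0, hp⟩, ⟨0, hp⟩), ?_⟩
  intro i hi j hj h
  simp only [dif_pos hi, dif_pos hj] at h
  have := f.injective h
  simpa using this

theorem ind_filter_sum {β : Type*} [Fintype β] (P : β → Prop) [DecidablePred P] (μ : β → ℝ) :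
    ∑ G with P G, μ G = ∑ G, μ G * ind (P G) := by
  rw [Finset.sum_filter]
  apply Finset.sum_congr rfl
  intro G _
  by_cases h : P G
  · rw [if_pos h, ind_of h, mul_one]
  · rw [if_neg h, ind_not h, mul_zero]

end Pool.Agent.T9h34.W
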