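import Pool.Agent.T9h35.Wide.Chain

set_option autoImplicit false

/-!
The induction on the number of further gates for an arbitrary additive and monotone functional.
The proof is the one of `Pool.Agent.T9h35.Wide.Mf_circuit'`.
-/

namespace Pool.Agent.T9h34.W

open Finset Pool.Agent.T9h34 Pool.Agent.T9h35.Wide

variable {X : Type*} [DecidableEq X]

/-- An additive and monotone functional on the functions of two sets. -/
structure PairOp (X : Type*) [DecidableEq X] where
  /-- The functional. -/
  E : (Finset X → Finset X → ℝ) → ℝ
  mono' : ∀ F G, (∀ U W, F U W ≤ G U W) → E F ≤ E G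
  add' : ∀ F G, E (fun U W => F U W + G U W) = E F + E G
  zero' : E (fun _ _ => 0) = 0

theorem PairOp.list (𝓜 : PairOp X) {α : Type*} (l : List α) (F : α → Finset X → Finset X → ℝ)
    {γ : ℝ} (h : ∀ a ∈ l, 𝓜.E (F a) ≤ γ) :
    𝓜.E (fun U W => (l.map (fun a => F a U W)).sum) ≤ l.length * γ := by
  induction l with
  | nil => simp [𝓜.zero']
  | cons a l ih =>
    simp only [List.map_cons, List.sum_cons, List.length_cons]
    rw [𝓜.add']
    have h1 := h a (by simp)
    have h2 := ih (fun b hb => h b (by simp [hb]))
    push_cast
    linarith

/-- The induction on the number of further gates. -/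
theorem PairOp.circuit (𝓜 : PairOp X) {f : ℕ} (s d : ℕ) {γ : ℝ} (hγ0 : 0 ≤ γ)
    (hγ : ∀ C : Circuit X, (∀ g ∈ C.gates, MonoFanIn f g) → C.size ≤ s →
      𝓜.E (fun U W => ind (C.eval (chi U) ≠ C.eval (chi W))) ≤ γ) (t : ℕ) (C : Circuit X)
    (ht : numFurther f C = t) (hs : C.size ≤ s) (hd : FurtherFanIn f d C) :
    𝓜.E (fun U W => ind (C.eval (chi U) ≠ C.eval (chi W))) ≤ ((2 : ℝ) ^ t * (1 + d) - d) * γ := by
  classical
  induction t generalizing C with
  | zero =>
    have hm : ∀ g ∈ C.gates, MonoFanIn f g := by
      intro g hg
      unfold numFurther at ht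
      rw [List.countP_eq_zero] at ht
      have := ht g hg
      simpa using this
    have := hγ C hm hs
    rw [pow_zero, one_mul, add_sub_cancel_right, one_mul]
    exact this
  | succ t ih =>
    obtain ⟨pre, args, φ, post, hgs, hpre, hnot⟩ := exists_first (f := f) C.gates (by
      unfold numFurther at ht; omega)
    set Cb : Bool → Circuit X := fun b => ⟨pre ++ constGate b :: post, C.out⟩ with hCb
    have hlen : ∀ b, (Cb b).size ≤ s := by
      intro b
      have : (Cb b).size = C.size := by
        simp only [Circuit.size, hCb, hgs, List.length_append, List.length_cons]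
      omega
    have hnum : ∀ b, numFurther f (Cb b) = t := by
      intro b
      unfold numFurther at ht ⊢
      rw [hgs] at ht
      simp only [hCb] at ht ⊢
      rw [List.countP_append, List.countP_cons_of_pos (by simpa using hnot)] at ht
      rw [List.countP_append, List.countP_cons_of_neg (by simpa using monoFanIn_const f b)]
      omega
    have hfan : ∀ b, FurtherFanIn f d (Cb b) := by
      intro b args' φ' hmem
      simp only [hCb, List.mem_append, List.mem_cons] at hmem
      apply hd args' φ'
      rw [hgs]
      rcases hmem with h | h | h
      · exact List.mem_append_left _ h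
      · exact absurd h (by simp [constGate])
      · exact List.mem_append_right _ (List.mem_cons_of_mem _ h)
    have hargs : args.length ≤ d := hd args φ (by rw [hgs]; simp) hnot
    have hpt : ∀ U W : Finset X, ind (C.eval (chi U) ≠ C.eval (chi W))
        ≤ (args.map (fun a => ind ((⟨pre, a⟩ : Circuit X).eval (chi U)
              ≠ (⟨pre, a⟩ : Circuit X).eval (chi W)))).sum
          + (ind ((Cb false).eval (chi U) ≠ (Cb false).eval (chi W))
            + ind ((Cb true).eval (chi U) ≠ (Cb true).eval (chi W))) := by
      intro U W
      by_cases hall : ∀ a ∈ args, (⟨pre, a⟩ : Circuit X).eval (chi U)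
          = (⟨pre, a⟩ : Circuit X).eval (chi W)
      · set b := φ (args.map (fun a => a.eval (chi U) (runGates (chi U) pre))) with hb
        have hb' : φ (args.map (fun a => a.eval (chi W) (runGates (chi W) pre))) = b := by
          rw [hb]
          congr 1
          apply List.map_congr_left
          intro a ha
          exact (hall a ha).symm
        have hrun : ∀ Z : Finset X,
            φ (args.map (fun a => a.eval (chi Z) (runGates (chi Z) pre))) = b →
            C.eval (chi Z) = (Cb b).eval (chi Z) := by
          intro Z hZ
          unfold Circuit.eval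
          simp only [hCb]
          rw [hgs, runGates_split, runGates_split]
          have h1 : (Gate.other args φ : Gate X).eval (chi Z) (runGates (chi Z) pre) = b := hZ
          rw [h1, constGate_eval]
        have hU := hrun U hb.symm
        have hW := hrun W hb'
        rw [hU, hW]
        have hsum : 0 ≤ (args.map (fun a => ind ((⟨pre, a⟩ : Circuit X).eval (chi U)
              ≠ (⟨pre, a⟩ : Circuit X).eval (chi W)))).sum := by
          apply List.sum_nonneg
          intro y hy
          simp only [List.mem_map] at hy
          obtain ⟨a, _, rfl⟩ := hy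
          exact ind_nonneg _
        have h0 := ind_nonneg ((Cb false).eval (chi U) ≠ (Cb false).eval (chi W))
        have h1 := ind_nonneg ((Cb true).eval (chi U) ≠ (Cb true).eval (chi W))
        cases b <;> linarith
      · push Not at hall
        obtain ⟨a, ha, hne⟩ := hall
        have h1 : (1 : ℝ) ≤ (args.map (fun a => ind ((⟨pre, a⟩ : Circuit X).eval (chi U)
              ≠ (⟨pre, a⟩ : Circuit X).eval (chi W)))).sum := by
          rw [← ind_of hne]
          apply List.single_le_sum
          · intro y hy
            simp only [List.mem_map] at hy
            obtain ⟨a, _, rfl⟩ := hy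
            exact ind_nonneg _
          · exact List.mem_map.2 ⟨a, ha, rfl⟩
        have h0 := ind_nonneg ((Cb false).eval (chi U) ≠ (Cb false).eval (chi W))
        have h2 := ind_nonneg ((Cb true).eval (chi U) ≠ (Cb true).eval (chi W))
        have h3 := ind_le_one (C.eval (chi U) ≠ C.eval (chi W))
        linarith
    refine le_trans (𝓜.mono' _ _ hpt) ?_
    rw [𝓜.add', 𝓜.add']
    have h1 : 𝓜.E (fun U W => (args.map (fun a => ind ((⟨pre, a⟩ : Circuit X).eval (chi U)
              ≠ (⟨pre, a⟩ : Circuit X).eval (chi W)))).sum) ≤ args.length * γ := by
      apply 𝓜.list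
      intro a _
      apply hγ ⟨pre, a⟩ hpre
      have : C.size = pre.length + (post.length + 1) := by
        simp only [Circuit.size, hgs, List.length_append, List.length_cons]
      have h2 : (⟨pre, a⟩ : Circuit X).size = pre.length := rfl
      omega
    have h2 := ih (Cb false) (hnum false) (hlen false) (hfan false)
    have h3 := ih (Cb true) (hnum true) (hlen true) (hfan true)
    have h4 : (args.length : ℝ) * γ ≤ d * γ := by
      apply mul_le_mul_of_nonneg_right _ hγ0
      exact_mod_cast hargs
    rw [pow_succ]
    linarith

end Pool.Agent.T9h34.W
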