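import Pool.Agent.T9h34.S.GridScore
import Pool.Agent.T9h34.W.Functional

set_option autoImplicit false

/-!
# The functional of a grid of blocks
-/

namespace Pool.Agent.T9h34.W

open Finset Pool.Agent.T9h34 Pool.Agent.T9h34.S Pool.Agent.T9h34.S.Gr Pool.Agent.T9h35.Wide
open scoped Classical

variable {a b k m p : ℕ}

/-- The sum over the first `M` blocks, filled one after the other with noise, of the expectation
of `F` over the pairs of a noisy set and the same set with a random word in the next block. -/
noncomputable def Mg (S : G.Row a b → Fin k → Fin m) (N' : G.NoiseOp (Ground a b))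
    (e : ℕ → Fin p × Fin p) (M : ℕ) : PairOp (GGround a b p) where
  E F := ∑ j ∈ Finset.range M, stage N' e j
    (fun U => Ev (wordSet (G.sparseCode S)) (fun V => F U (put U (e j) V)))
  mono' F G h := by
    apply Finset.sum_le_sum
    intro j _
    apply stage_mono
    intro U
    exact Ev_mono _ (fun V => h _ _)
  add' F G := by
    rw [← Finset.sum_add_distrib]
    apply Finset.sum_congr rfl
    intro j _
    rw [← stage_add]
    congr 1
    funext U
    rw [Ev_add]
  zero' := by
    apply Finset.sum_eq_zero
    intro j _
    rw [show (fun U : Finset (GGround a b p) => Ev (wordSet (G.sparseCode S))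
      (fun _ => (0 : ℝ))) = fun _ => 0 by funext U; exact Ev_const _ 0]
    exact stage_const j 0

variable {S : G.Row a b → Fin k → Fin m} {N' : G.NoiseOp (Ground a b)} {e : ℕ → Fin p × Fin p}

/-- A monotone function that is dominated on every block separates few of the pairs. -/
theorem Mg_monotone (M : ℕ) (h : Finset (GGround a b p) → Bool)
    (hmono : ∀ U V, U ⊆ V → h U = true → h V = true) {δ : ℝ} (hδ : 0 ≤ δ)
    (hdom : ∀ (U : Finset (GGround a b p)) (e' : Fin p × Fin p),
      Ev (wordSet (G.sparseCode S)) (fun V => ind (h (put U e' V) = true)) ≤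
        3 * N'.E (fun W => ind (h (put U e' W) = true)) + δ) :
    (Mg S N' e M).E (fun U W => ind (h U ≠ h W)) ≤ 3 + M * δ := by
  set F : Finset (GGround a b p) → ℝ := fun U => ind (h U = true) with hF
  have hpt : ∀ (j : ℕ) (U : Finset (GGround a b p)),
      Ev (wordSet (G.sparseCode S)) (fun V => ind (h U ≠ h (put U (e j) V))) ≤
        3 * (N'.E (fun W => F (put U (e j) W)) - F U) + δ := by
    intro j U
    by_cases hU : h U = true
    · have h1 : ∀ W : Finset (Ground a b), h (put U (e j) W) = true :=
        fun W => hmono _ _ subset_union_left hU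
      have h2 : (fun V : Finset (Ground a b) => ind (h U ≠ h (put U (e j) V))) = fun _ => (0 : ℝ) := by
        funext V
        rw [ind_not]
        rw [hU, h1 V]
        simp
      rw [h2, Ev_const]
      have h3 : (fun W : Finset (Ground a b) => F (put U (e j) W)) = fun _ => 1 := by
        funext W
        exact ind_of (h1 W)
      have h4 : F U = 1 := ind_of hU
      rw [h3, N'.const', h4]
      linarith
    · have h1 : Ev (wordSet (G.sparseCode S)) (fun V => ind (h U ≠ h (put U (e j) V))) ≤
          Ev (wordSet (G.sparseCode S)) (fun V => ind (h (put U (e j) V) = true)) := by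
        apply Ev_mono
        intro V
        apply ind_mono
        intro h3
        have hU' : h U = false := by simpa using hU
        rw [hU'] at h3
        simpa using h3.symm
      have h2 : F U = 0 := ind_not hU
      have h3 := hdom U (e j)
      rw [h2]
      linarith
  have hstep : ∀ j ∈ Finset.range M, stage N' e j
      (fun U => Ev (wordSet (G.sparseCode S)) (fun V => ind (h U ≠ h (put U (e j) V)))) ≤
      3 * (stage N' e (j + 1) F - stage N' e j F) + δ := by
    intro j _
    refine (stage_mono j (hpt j)).trans (le_of_eq ?_)
    rw [stage_add, stage_const_mul, stage_const]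
    have h2 : (fun U => N'.E (fun W => F (put U (e j) W)) - F U) =
        fun U => N'.E (fun W => F (put U (e j) W)) + (-1) * F U := by funext U; ring
    rw [h2, stage_add, stage_const_mul]
    simp only [stage]
    ring
  change ∑ j ∈ Finset.range M, stage N' e j
    (fun U => Ev (wordSet (G.sparseCode S)) (fun V => ind (h U ≠ h (put U (e j) V)))) ≤ _
  refine (Finset.sum_le_sum hstep).trans ?_
  rw [Finset.sum_add_distrib, ← Finset.mul_sum,
    Finset.sum_range_sub (fun j => stage N' e j F), Finset.sum_const, Finset.card_range,
    nsmul_eq_mul]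
  have h1 : stage N' e M F ≤ 1 := by
    rw [← stage_const (N' := N') (e := e) M (1 : ℝ)]
    exact stage_mono M (fun U => ind_le_one _)
  have h2 : 0 ≤ stage N' e 0 F := stage_nonneg 0 (fun U => ind_nonneg _)
  linarith

/-- The number of correct answers of a Boolean function is bounded by the functional. -/
theorem gscore_le_Mg (M : ℕ) (ha : 0 < a) (he : ∀ i < M, ∀ j < M, e i = e j → i = j) {η : ℝ}
    (hη0 : 0 ≤ η) (hη : N'.E (fun U => ind (∃ s, wordSet (G.sparseCode S) s ⊆ U)) ≤ η)
    (h : Finset (GGround a b p) → Bool) :
    gscore S N' e M (fun Z => ind (h Z = true ↔ HasWord S Z)) ≤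
      M + (M * (M * η) + (Mg S N' e M).E (fun U W => ind (h U ≠ h W))) := by
  have hpt : ∀ (j : ℕ) (U : Finset (GGround a b p)),
      ind (h U = true ↔ HasWord S U) +
        Ev (wordSet (G.sparseCode S)) (fun V => ind (h (put U (e j) V) = true ↔
          HasWord S (put U (e j) V))) ≤
      1 + (ind (HasWord S U) + Ev (wordSet (G.sparseCode S))
        (fun V => ind (h U ≠ h (put U (e j) V)))) := by
    intro j U
    by_cases hU : HasWord S U
    · rw [ind_of hU]
      have h5 := Ev_nonneg (wordSet (G.sparseCode S))
        (F := fun V => ind (h U ≠ h (put U (e j) V)))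
        (fun z => ind_nonneg _)
      have h6 := ind_le_one (h U = true ↔ HasWord S U)
      have h7 := Ev_le_one (wordSet (G.sparseCode S))
        (F := fun V => ind (h (put U (e j) V) = true ↔ HasWord S (put U (e j) V)))
        (fun z => ind_le_one _)
      linarith
    · have h5 : 0 ≤ ind (HasWord S U) := ind_nonneg _
      have h6 : ind (h U = true ↔ HasWord S U) +
          Ev (wordSet (G.sparseCode S)) (fun V => ind (h (put U (e j) V) = true ↔
            HasWord S (put U (e j) V))) ≤ Ev (wordSet (G.sparseCode S))
          (fun V => 1 + ind (h U ≠ h (put U (e j) V))) := by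
        rw [← Ev_const (wordSet (G.sparseCode S)) (ind (h U = true ↔ HasWord S U)),
          ← Ev_add]
        apply Ev_mono'
        intro ω
        have hW : HasWord S (put U (e j) (wordSet (G.sparseCode S) ω)) :=
          ⟨e j, ω, fun g hg => mem_put.2 (Or.inr ⟨rfl, hg⟩)⟩
        by_cases hne : h U ≠ h (put U (e j) (wordSet (G.sparseCode S) ω))
        · rw [ind_of hne]
          have h7 := ind_le_one (h U = true ↔ HasWord S U)
          have h8 := ind_le_one (h (put U (e j) (wordSet (G.sparseCode S) ω)) = true ↔
            HasWord S (put U (e j) (wordSet (G.sparseCode S) ω)))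
          linarith
        · rw [ind_not hne]
          push Not at hne
          by_cases hc : h U = true
          · rw [ind_not (p := h U = true ↔ HasWord S U) (fun h' => hU (h'.1 hc))]
            have h8 := ind_le_one (h (put U (e j) (wordSet (G.sparseCode S) ω)) = true ↔
              HasWord S (put U (e j) (wordSet (G.sparseCode S) ω)))
            linarith
          · rw [ind_not (p := h (put U (e j) (wordSet (G.sparseCode S) ω)) = true ↔
              HasWord S (put U (e j) (wordSet (G.sparseCode S) ω)))
              (fun h' => hc (by rw [hne]; exact h'.2 hW))]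
            have h7 := ind_le_one (h U = true ↔ HasWord S U)
            linarith
      rw [Ev_add, Ev_const] at h6
      linarith
  have hstep : ∀ j ∈ Finset.range M, stage N' e j (fun U => ind (h U = true ↔ HasWord S U) +
        Ev (wordSet (G.sparseCode S)) (fun V => ind (h (put U (e j) V) = true ↔
          HasWord S (put U (e j) V)))) ≤
      1 + (M * η + stage N' e j (fun U => Ev (wordSet (G.sparseCode S))
        (fun V => ind (h U ≠ h (put U (e j) V))))) := by
    intro j hj
    rw [Finset.mem_range] at hj
    refine (stage_mono j (hpt j)).trans ?_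
    rw [stage_add, stage_const, stage_add]
    have h3 := stage_word S ha he hη j hj.le
    have h4 : (j : ℝ) * η ≤ M * η := by
      apply mul_le_mul_of_nonneg_right _ hη0
      exact_mod_cast hj.le
    linarith
  unfold gscore
  refine (Finset.sum_le_sum hstep).trans (le_of_eq ?_)
  rw [Finset.sum_add_distrib, Finset.sum_add_distrib, Finset.sum_const, Finset.sum_const,
    Finset.card_range, nsmul_eq_mul, nsmul_eq_mul, mul_one]
  rfl

/-- Domination on a block for circuits of monotone gates. -/
theorem dom_block {L c f : ℕ} {B κ : ℝ} {N : G.NoiseOp (Ground a b)}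
    (H : Hyp N (wordSet (G.sparseCode S)) L c f B κ) {s : ℕ} {δ : ℝ}
    (herr : Pool.Agent.T9h35.Wide.err (Ground a b) L c s ≤ δ)
    (C : Circuit (GGround a b p)) (hm : ∀ g ∈ C.gates, MonoFanIn f g) (hs : C.size ≤ s)
    (U : Finset (GGround a b p)) (e' : Fin p × Fin p) :
    Ev (wordSet (G.sparseCode S)) (fun V => ind (C.eval (chi (put U e' V)) = true)) ≤
      3 * (powOp N (L + 1)).E (fun W => ind (C.eval (chi (put U e' W)) = true)) + δ := by
  have hev : ∀ V : Finset (Ground a b), (C.subst (ovr U e')).eval (chi V) =
      C.eval (chi (put U e' V)) := by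
    intro V
    rw [Circuit.eval_subst, pull_ovr]
  have hm' : ∀ g ∈ (C.subst (ovr U e')).gates, MonoFanIn f g := by
    intro g hg
    simp only [Circuit.subst, List.mem_map] at hg
    obtain ⟨g', hg', rfl⟩ := hg
    exact (monoFanIn_subst _ g').2 (hm g' hg')
  have h := domination' H (C.subst (ovr U e')) hm'
  simp only [hev] at h
  rw [Circuit.size_subst] at h
  have h2 := Pool.Agent.T9h35.Wide.err_mono (X := Ground a b) (L := L) (c := c) hs
  unfold Pool.Agent.T9h35.Wide.err at h2 herr
  change _ ≤ 3 * N.iter (L + 1) (fun W => ind (C.eval (chi (put U e' W)) = true)) + δ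
  linarith

end Pool.Agent.T9h34.W
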