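import Pool.Agent.T9h34.W.WBlock
import Pool.Agent.T9h34.W.WGrid
import Pool.Agent.T9h34.W.Embed

set_option autoImplicit false

/-!
# Average case, all clique sizes: the reduction to one Boolean function on a grid of blocks
-/

namespace Pool.Agent.T9h34.W

open Finset Pool.Agent.T9h34 Pool.Agent.T9h34.S Pool.Agent.T9h35.Wide
open scoped Classical

/-- The sizes of the block. -/
theorem wsizes {L0 f z l w y lam a b k : ℕ} (hL1 : 1 ≤ L0) (hz : z = Nat.log 2 (L0 + f) + 1)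
    (hl : l = 2 * L0 + 100) (hw : w = l + f + 2) (hy : y = Nat.log 2 w) (hlam : lam = 2 * y + 25)
    (ha : a ≤ 130 * (lam ^ 2 * l)) (hb : b ≤ lam) (hk : k = 2 * lam)
    (h2b : 2 ^ (2 * b) ≤ 84480 * (lam ^ 3 * w)) :
    a * 2 + a * (2 * (b * k)) ≤ 10 ^ 12 * (L0 * z ^ 4) ∧
    (4 * (a * 2 * 2 ^ b + a * (2 * (b * k)) * 4)) ^ 2 ≤
      3 * 10 ^ 28 * (L0 ^ 2 * (L0 + f) * z ^ 7) := by
  have hlL : l ≤ 102 * L0 := by omega
  have hwL : w ≤ 104 * (L0 + f) := by omega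
  have hyz : y ≤ z + 6 := by
    have h1 : w < 2 ^ z * 2 ^ 7 := by
      have h2 : L0 + f < 2 ^ z := by rw [hz]; exact Nat.lt_pow_succ_log_self (by norm_num) _
      calc w ≤ 104 * (L0 + f) := hwL
        _ < 104 * 2 ^ z := Nat.mul_lt_mul_of_pos_left h2 (by norm_num)
        _ ≤ 128 * 2 ^ z := Nat.mul_le_mul_right _ (by norm_num)
        _ = 2 ^ z * 2 ^ 7 := by ring
    rw [← pow_add] at h1
    have h3 : Nat.log 2 w < z + 7 := (Nat.log_lt_iff_lt_pow (by norm_num) (by omega)).2 h1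
    omega
  have hz1 : 1 ≤ z := by omega
  have hlamz : lam ≤ 39 * z := by omega
  have hlam1 : 1 ≤ lam := by omega
  have hlamw : lam ≤ 27 * w := by
    have h1 : y < 2 ^ y := Nat.lt_two_pow_self
    have h2 : 2 ^ y ≤ w := by rw [hy]; exact Nat.pow_log_le_self 2 (by omega)
    omega
  have hblk : 2 * (b * k) ≤ 4 * lam ^ 2 := by
    rw [hk]
    calc 2 * (b * (2 * lam)) ≤ 2 * (lam * (2 * lam)) :=
          Nat.mul_le_mul_left _ (Nat.mul_le_mul_right _ hb)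
      _ = 4 * lam ^ 2 := by ring
  constructor
  · have h1 : 1 ≤ lam ^ 2 := Nat.one_le_pow _ _ hlam1
    have h2 : lam ^ 4 ≤ (39 * z) ^ 4 := Nat.pow_le_pow_left hlamz 4
    calc a * 2 + a * (2 * (b * k)) = a * (2 + 2 * (b * k)) := by ring
      _ ≤ (130 * (lam ^ 2 * l)) * (2 * lam ^ 2 + 4 * lam ^ 2) :=
          Nat.mul_le_mul ha (Nat.add_le_add (by omega) hblk)
      _ = 780 * (l * lam ^ 4) := by ring
      _ ≤ 780 * ((102 * L0) * (39 * z) ^ 4) :=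
          Nat.mul_le_mul_left _ (Nat.mul_le_mul hlL h2)
      _ = (780 * 102 * 39 ^ 4) * (L0 * z ^ 4) := by ring
      _ ≤ 10 ^ 12 * (L0 * z ^ 4) := Nat.mul_le_mul_right _ (by norm_num)
  · obtain ⟨A, hA'⟩ : ∃ A, A = a * 2 * 2 ^ b := ⟨_, rfl⟩
    obtain ⟨B, hB'⟩ : ∃ B, B = a * (2 * (b * k)) * 4 := ⟨_, rfl⟩
    have hA : A ^ 2 ≤ 5710848000 * (lam ^ 7 * (l ^ 2 * w)) := by
      calc A ^ 2 = 4 * a ^ 2 * 2 ^ (2 * b) := by
            rw [hA', mul_pow, mul_pow, ← pow_mul, mul_comm b 2]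
            ring
        _ ≤ 4 * (130 * (lam ^ 2 * l)) ^ 2 * (84480 * (lam ^ 3 * w)) :=
            Nat.mul_le_mul (Nat.mul_le_mul_left _ (Nat.pow_le_pow_left ha 2)) h2b
        _ = 5710848000 * (lam ^ 7 * (l ^ 2 * w)) := by ring
    have hB : B ^ 2 ≤ 116812800 * (lam ^ 7 * (l ^ 2 * w)) := by
      have h1 : B ≤ 2080 * (lam ^ 4 * l) := by
        rw [hB']
        calc a * (2 * (b * k)) * 4 ≤ (130 * (lam ^ 2 * l)) * (4 * lam ^ 2) * 4 :=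
              Nat.mul_le_mul_right _ (Nat.mul_le_mul ha hblk)
          _ = 2080 * (lam ^ 4 * l) := by ring
      calc B ^ 2 ≤ (2080 * (lam ^ 4 * l)) ^ 2 := Nat.pow_le_pow_left h1 2
        _ = 4326400 * (lam ^ 7 * l ^ 2) * lam := by ring
        _ ≤ 4326400 * (lam ^ 7 * l ^ 2) * (27 * w) := Nat.mul_le_mul_left _ hlamw
        _ = 116812800 * (lam ^ 7 * (l ^ 2 * w)) := by ring
    rw [← hA', ← hB']
    have hAB : (4 * (A + B)) ^ 2 ≤ 186485145600 * (lam ^ 7 * (l ^ 2 * w)) := by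
      have h1 : (4 * (A + B)) ^ 2 ≤ 32 * (A ^ 2 + B ^ 2) := by
        zify
        nlinarith [sq_nonneg ((A : ℤ) - B)]
      omega
    have h1 : l ^ 2 ≤ (102 * L0) ^ 2 := Nat.pow_le_pow_left hlL 2
    have h2 : lam ^ 7 ≤ (39 * z) ^ 7 := Nat.pow_le_pow_left hlamz 7
    calc (4 * (A + B)) ^ 2 ≤ 186485145600 * (lam ^ 7 * (l ^ 2 * w)) := hAB
      _ ≤ 186485145600 * ((39 * z) ^ 7 * ((102 * L0) ^ 2 * (104 * (L0 + f)))) :=
          Nat.mul_le_mul_left _ (Nat.mul_le_mul h2 (Nat.mul_le_mul h1 hwL))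
      _ = (186485145600 * 39 ^ 7 * 102 ^ 2 * 104) * (L0 ^ 2 * (L0 + f) * z ^ 7) := by ring
      _ ≤ 3 * 10 ^ 28 * (L0 ^ 2 * (L0 + f) * z ^ 7) := Nat.mul_le_mul_right _ (by norm_num)

/-- The data of a grid for which `n - q` is large. -/
theorem grid_case {n q f L0 z : ℕ} (hqn : q ≤ n) (hL1 : 1 ≤ L0) (hn : n < 2 ^ L0)
    (hz : z = Nat.log 2 (L0 + f) + 1) (hq : 10 ^ 12 * (L0 * z ^ 4) ≤ q)
    (hbig : 3 * 10 ^ 28 * (L0 ^ 2 * (L0 + f) * z ^ 7) < (n - q) ^ 2) :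
    ∃ (a b k m p l lam : ℕ) (S : G.Row a b → Fin k → Fin m) (N : G.NoiseOp (Ground a b))
      (B κ : ℝ) (e : ℕ → Fin p × Fin p) (σ : Fin n × Fin n → GGround a b p ⊕ Bool)
      (μ : SimpleGraph (Fin n) → ℝ),
      2 ^ L0 ≤ 2 ^ l ∧ 100 ≤ l ∧ 25 ≤ lam ∧ Fintype.card (Ground a b) + 1 ≤ 2 ^ (2 * lam) ∧
      Hyp N (wordSet (G.sparseCode S)) (14 * (lam * l)) (4 * l) f B κ ∧
      ((p ^ 2 : ℕ) : ℝ) * (1 / 2 : ℝ) ^ (2 * l) ≤ 1 ∧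
      (∀ G, 0 ≤ μ G) ∧ ∑ G, μ G = 1 ∧
      ∀ (h : (Fin n × Fin n → Bool) → Bool) (Γ : ℝ),
        (Mg S (powOp N (14 * (lam * l) + 1)) e (p ^ 2)).E
          (fun U W => ind (h (pull σ (chi U)) ≠ h (pull σ (chi W)))) ≤ Γ →
        ((n - q : ℕ) : ℝ) ^ 2 *
            ((∑ G with (h (graphInput G) = true ↔ ∃ T, G.IsNClique q T), μ G) - 1 / 2)
          ≤ 3 * 10 ^ 28 * (L0 ^ 2 * (L0 + f) * z ^ 7) * (Γ + 1) := by
  obtain ⟨l, hl⟩ : ∃ l, l = 2 * L0 + 100 := ⟨_, rfl⟩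
  obtain ⟨w, hw⟩ : ∃ w, w = l + f + 2 := ⟨_, rfl⟩
  obtain ⟨y, hy⟩ : ∃ y, y = Nat.log 2 w := ⟨_, rfl⟩
  obtain ⟨lam, hlam⟩ : ∃ lam, lam = 2 * y + 25 := ⟨_, rfl⟩
  obtain ⟨a, b, k, m, S, N, B, κ, ha1, hk1, ha, hb, hk, h2b, hX, H, hη⟩ :=
    wblock (l := l) (f := f) (w := w) (lam := lam) (by omega) hw (by rw [← hy]; exact hlam)
  obtain ⟨hgr, hw2⟩ := wsizes hL1 hz hl hw hy hlam ha hb hk h2b
  obtain ⟨R, hR⟩ : ∃ R, R = L0 ^ 2 * (L0 + f) * z ^ 7 := ⟨_, rfl⟩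
  obtain ⟨K, hK⟩ : ∃ K, K = 3 * 10 ^ 28 * R := ⟨_, rfl⟩
  rw [← hR, ← hK] at hw2 hbig
  obtain ⟨W0, hW0⟩ : ∃ W0, W0 = a * 2 * 2 ^ b + a * (2 * (b * k)) * 4 := ⟨_, rfl⟩
  rw [← hW0] at hw2
  have hW0pos : 0 < W0 := by
    rw [hW0]
    have : 0 < a * 2 * 2 ^ b := by positivity
    omega
  have hWn : 4 * W0 < n - q := by
    have h1 : (4 * W0) ^ 2 < (n - q) ^ 2 := lt_of_le_of_lt hw2 hbig
    exact lt_of_pow_lt_pow_left₀ 2 (Nat.zero_le _) h1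
  obtain ⟨p, hp⟩ : ∃ p, p = (n - q) / W0 := ⟨_, rfl⟩
  have hpW : p * W0 ≤ n - q := by rw [hp]; exact Nat.div_mul_le_self _ _
  have hpW2 : n - q < (p + 1) * W0 := by
    rw [hp, mul_comm]
    exact Nat.lt_mul_div_succ _ hW0pos
  have hp0 : 0 < p := by
    rw [hp]
    exact Nat.div_pos (by omega) hW0pos
  obtain ⟨σ, Φ, -, hΦ, hσ⟩ := grid_embedding (p := p) S ha1 hk1 (hgr.trans hq) hqn hp0
    (by rw [← hW0]; exact hpW)
  obtain ⟨e, he⟩ := exists_enum (M := p ^ 2) hp0 le_rfl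
  have hM0 : 0 < p ^ 2 := by positivity
  have hpL : ((p : ℕ) : ℝ) ≤ 2 ^ L0 := by
    have h1 : p ≤ n := by
      have h2 : p * 1 ≤ p * W0 := Nat.mul_le_mul_left _ hW0pos
      omega
    exact_mod_cast h1.trans hn.le
  have hMsmall : ((p ^ 2 : ℕ) : ℝ) * (((p ^ 2 : ℕ) : ℝ) * (1 / 2 : ℝ) ^ (2 * l)) ≤ 1 := by
    have h5 : (1 / 2 : ℝ) ^ (2 * l) ≤ (1 / 2) ^ (4 * L0) :=
      pow_le_pow_of_le_one (by norm_num) (by norm_num) (by omega)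
    calc ((p ^ 2 : ℕ) : ℝ) * (((p ^ 2 : ℕ) : ℝ) * (1 / 2 : ℝ) ^ (2 * l))
        = (p : ℝ) ^ 4 * (1 / 2 : ℝ) ^ (2 * l) := by push_cast; ring
      _ ≤ (2 ^ L0) ^ 4 * (1 / 2) ^ (4 * L0) := by
          apply mul_le_mul (pow_le_pow_left₀ (by positivity) hpL 4) h5 (by positivity)
            (by positivity)
      _ = 1 := by
          rw [← pow_mul, mul_comm L0 4, ← mul_pow]
          norm_num
  have hMsmall2 : ((p ^ 2 : ℕ) : ℝ) * (1 / 2 : ℝ) ^ (2 * l) ≤ 1 := by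
    have h1 : (1 : ℝ) ≤ ((p ^ 2 : ℕ) : ℝ) := by exact_mod_cast hM0
    have h2 : (0 : ℝ) ≤ ((p ^ 2 : ℕ) : ℝ) * (1 / 2 : ℝ) ^ (2 * l) := by positivity
    nlinarith
  refine ⟨a, b, k, m, p, l, lam, S, N, B, κ, e, σ,
    Gr.push (Gr.testOp S (powOp N (14 * (lam * l) + 1)) e hM0) Φ,
    Nat.pow_le_pow_right (by norm_num) (by omega), by omega, by omega, hX, H, hMsmall2,
    Gr.push_nonneg _ _, Gr.sum_push _ _, ?_⟩
  intro h Γ hΓ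
  set N' := powOp N (14 * (lam * l) + 1) with hN'
  have hmain := gscore_le_Mg (S := S) (N' := N') (p ^ 2) (by omega : 0 < a) he
    (by positivity : (0 : ℝ) ≤ (1 / 2 : ℝ) ^ (2 * l)) hη (fun Z => h (pull σ (chi Z)))
  have hΓ0 : 0 ≤ Γ := by
    refine le_trans ?_ hΓ
    have h1 := (Mg S N' e (p ^ 2)).mono' (fun _ _ => 0)
      (fun U W => ind (h (pull σ (chi U)) ≠ h (pull σ (chi W)))) (fun _ _ => ind_nonneg _)
    rwa [(Mg S N' e (p ^ 2)).zero'] at h1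
  rw [ind_filter_sum, Gr.sum_push_mul]
  have hT : (Gr.testOp S N' e hM0).E (fun Z => ind (h (graphInput (Φ Z)) = true ↔
      ∃ T, (Φ Z).IsNClique q T)) =
      Gr.gscore S N' e (p ^ 2) (fun Z => ind (h (pull σ (chi Z)) = true ↔ Gr.HasWord S Z)) /
        (2 * ((p ^ 2 : ℕ) : ℝ)) := by
    unfold Gr.testOp
    simp only [hσ, hΦ]
  rw [hT]
  obtain ⟨A, hA⟩ : ∃ A, A = Gr.gscore S N' e (p ^ 2)
    (fun Z => ind (h (pull σ (chi Z)) = true ↔ Gr.HasWord S Z)) := ⟨_, rfl⟩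
  rw [← hA] at hmain ⊢
  obtain ⟨M, hM⟩ : ∃ M : ℝ, M = ((p ^ 2 : ℕ) : ℝ) := ⟨_, rfl⟩
  rw [← hM] at hmain hMsmall ⊢
  have hMpos : (0 : ℝ) < M := by rw [hM]; exact_mod_cast hM0
  have hA2 : A ≤ M + (Γ + 1) := by linarith
  have h1 : A / (2 * M) - 1 / 2 ≤ (Γ + 1) / (2 * M) := by
    rw [div_sub_div _ _ (by positivity) (by norm_num), div_le_div_iff₀ (by positivity)
      (by positivity)]
    nlinarith
  have h2 : ((n - q : ℕ) : ℝ) ^ 2 ≤ 4 * M * (W0 : ℝ) ^ 2 := by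
    have h3 : n - q ≤ 2 * p * W0 := by nlinarith
    have h4 : ((n - q : ℕ) : ℝ) ≤ 2 * p * W0 := by exact_mod_cast h3
    calc ((n - q : ℕ) : ℝ) ^ 2 ≤ (2 * p * W0) ^ 2 := pow_le_pow_left₀ (by positivity) h4 2
      _ = 4 * M * (W0 : ℝ) ^ 2 := by rw [hM]; push_cast; ring
  have h3 : (0 : ℝ) ≤ ((n - q : ℕ) : ℝ) ^ 2 := by positivity
  have h4 : (0 : ℝ) ≤ (Γ + 1) / (2 * M) := by positivity
  have h5 : (16 : ℝ) * W0 ^ 2 ≤ K := by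
    have h6 : (((4 * W0) ^ 2 : ℕ) : ℝ) ≤ ((K : ℕ) : ℝ) := by exact_mod_cast hw2
    push_cast at h6
    calc (16 : ℝ) * W0 ^ 2 = (4 * W0) ^ 2 := by ring
      _ ≤ _ := h6
  have h6 : ((K : ℕ) : ℝ) = 3 * 10 ^ 28 * (L0 ^ 2 * (L0 + f) * z ^ 7) := by
    rw [hK, hR]
    push_cast
    ring
  rw [← h6]
  calc ((n - q : ℕ) : ℝ) ^ 2 * (A / (2 * M) - 1 / 2)
      ≤ ((n - q : ℕ) : ℝ) ^ 2 * ((Γ + 1) / (2 * M)) := mul_le_mul_of_nonneg_left h1 h3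
    _ ≤ (4 * M * (W0 : ℝ) ^ 2) * ((Γ + 1) / (2 * M)) := mul_le_mul_of_nonneg_right h2 h4
    _ = 2 * W0 ^ 2 * (Γ + 1) := by field_simp; ring
    _ ≤ 16 * W0 ^ 2 * (Γ + 1) := by
        apply mul_le_mul_of_nonneg_right _ (by linarith)
        nlinarith [sq_nonneg (W0 : ℝ)]
    _ ≤ K * (Γ + 1) := mul_le_mul_of_nonneg_right h5 (by linarith)

end Pool.Agent.T9h34.W
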